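import Pool.Agent.Work.MP_6f78fb_rk.Interface

/-!
# Block COMPA: the components and flips form a flip system
-/

open scoped BigOperators TensorProduct
open Classical

noncomputable section

namespace Pool.RookLC.helper94

variable {n m : ℕ}

theorem fl_fl (κ : Finset (Fin n)) (ω : Pr n m) : fl κ (fl κ ω) = ω := by
  unfold fl
  ext1
  · funext a
    by_cases h : a ∈ κ <;> simp [h]
  · funext a
    by_cases h : a ∈ κ <;> simp [h]

theorem fl_comm (κ κ' : Finset (Fin n)) (ω : Pr n m) : fl κ (fl κ' ω) = fl κ' (fl κ ω) := by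
  unfold fl
  ext1
  · funext a
    by_cases h : a ∈ κ <;> by_cases h' : a ∈ κ' <;> simp [h, h']
  · funext a
    by_cases h : a ∈ κ <;> by_cases h' : a ∈ κ' <;> simp [h, h']

theorem fl_swap (κ : Finset (Fin n)) (ω : Pr n m) : fl κ ω.swap = (fl κ ω).swap := rfl

theorem ch_swap (κ : Finset (Fin n)) (ω : Pr n m) : ch κ ω.swap = - ch κ ω := by
  unfold ch
  ext1
  · simp only [Prod.fst_swap, Prod.snd_swap, Prod.neg_mk, ← Finset.sum_neg_distrib]
    exact Finset.sum_congr rfl (fun a _ => by ring)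
  · simp only [Prod.fst_swap, Prod.snd_swap, Prod.neg_mk, ← Finset.sum_neg_distrib]
    exact Finset.sum_congr rfl (fun a _ => by ring)

theorem ch_fl_self (κ : Finset (Fin n)) (ω : Pr n m) : ch κ (fl κ ω) = - ch κ ω := by
  rw [← ch_swap]
  unfold ch
  ext1
  · exact Finset.sum_congr rfl (fun a ha => by simp [fl, ha])
  · exact Finset.sum_congr rfl (fun a ha => by simp [fl, ha])

theorem ch_fl_disj (κ κ' : Finset (Fin n)) (ω : Pr n m) (h : ∀ a ∈ κ', a ∉ κ) :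
    ch κ' (fl κ ω) = ch κ' ω := by
  unfold ch
  ext1
  · exact Finset.sum_congr rfl (fun a ha => by simp [fl, h a ha])
  · exact Finset.sum_congr rfl (fun a ha => by simp [fl, h a ha])

theorem Shr_symm {ω : Pr n m} {a b : Fin n} (h : Shr ω a b) : Shr ω b a := by
  obtain ⟨j, h | h⟩ := h
  · exact ⟨j, Or.inr ⟨h.2, h.1⟩⟩
  · exact ⟨j, Or.inl ⟨h.2, h.1⟩⟩

theorem Shr_swap {ω : Pr n m} {a b : Fin n} (h : Shr ω a b) : Shr ω.swap a b := by
  obtain ⟨j, h | h⟩ := h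
  · exact ⟨j, Or.inr h⟩
  · exact ⟨j, Or.inl h⟩

theorem mem_cmp {ω : Pr n m} {a b : Fin n} : b ∈ cmp ω a ↔ (gr ω).Reachable a b := by
  simp [cmp]

theorem cmp_closed {ω : Pr n m} {a b c : Fin n} (h : (gr ω).Adj b c) (hb : b ∈ cmp ω a) :
    c ∈ cmp ω a := by
  rw [mem_cmp] at hb ⊢
  exact hb.trans h.reachable

/-- in an union of components -/
theorem comps_spec {ω : Pr n m} {κ : Finset (Fin n)} (h : κ ∈ comps ω) :
    Valid2 ω ∧ ∃ a, κ = cmp ω a := by
  unfold comps at h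
  split_ifs at h with hv
  · rw [Finset.mem_image] at h
    obtain ⟨a, -, ha⟩ := h
    exact ⟨hv, a, ha.symm⟩
  · simp at h

theorem closed {ω : Pr n m} {κ : Finset (Fin n)} (h : κ ∈ comps ω) {b c : Fin n}
    (hb : b ∈ κ) (hs : Shr ω b c) : c ∈ κ := by
  obtain ⟨-, a, rfl⟩ := comps_spec h
  by_cases hbc : b = c
  · exact hbc ▸ hb
  · exact cmp_closed (show (gr ω).Adj b c from ⟨hbc, hs⟩) hb

theorem disj {ω : Pr n m} {κ κ' : Finset (Fin n)} (h : κ ∈ comps ω) (h' : κ' ∈ comps ω)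
    (hne : κ ≠ κ') : ∀ a ∈ κ', a ∉ κ := by
  obtain ⟨-, b, rfl⟩ := comps_spec h
  obtain ⟨-, c, rfl⟩ := comps_spec h'
  intro a ha' ha
  apply hne
  rw [mem_cmp] at ha ha'
  ext x
  rw [mem_cmp, mem_cmp]
  exact ⟨fun hx => (ha'.trans ha.symm).trans hx, fun hx => (ha.trans ha'.symm).trans hx⟩

theorem valid_fl1 {ω : Pr n m} {κ : Finset (Fin n)} (h : κ ∈ comps ω) : Valid (fl κ ω).1 := by
  obtain ⟨hv, -⟩ := comps_spec h
  intro a b j ha hb
  simp only [fl] at ha hb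
  by_cases h1 : a ∈ κ <;> by_cases h2 : b ∈ κ
  · rw [if_pos h1] at ha; rw [if_pos h2] at hb; exact hv.2 a b j ha hb
  · rw [if_pos h1] at ha; rw [if_neg h2] at hb
    exact absurd (closed h h1 ⟨j, Or.inr ⟨ha, hb⟩⟩) h2
  · rw [if_neg h1] at ha; rw [if_pos h2] at hb
    exact absurd (closed h h2 ⟨j, Or.inr ⟨hb, ha⟩⟩) h1
  · rw [if_neg h1] at ha; rw [if_neg h2] at hb; exact hv.1 a b j ha hb

theorem gr_swap (ω : Pr n m) : gr ω.swap = gr ω := by
  ext a b
  exact ⟨fun h => ⟨h.1, Shr_swap h.2⟩, fun h => ⟨h.1, Shr_swap h.2⟩⟩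

theorem comps_swap (ω : Pr n m) : comps ω.swap = comps ω := by
  unfold comps cmp
  rw [gr_swap]
  have h1 : Valid2 ω.swap ↔ Valid2 ω := ⟨fun h => ⟨h.2, h.1⟩, fun h => ⟨h.2, h.1⟩⟩
  simp only [h1]

theorem valid_fl {ω : Pr n m} {κ : Finset (Fin n)} (h : κ ∈ comps ω) : Valid2 (fl κ ω) := by
  refine ⟨valid_fl1 h, ?_⟩
  have h1 := valid_fl1 (ω := ω.swap) (κ := κ) (by rw [comps_swap]; exact h)
  rwa [fl_swap] at h1

theorem shr_fl {ω : Pr n m} {κ : Finset (Fin n)} (h : κ ∈ comps ω) {a b : Fin n}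
    (hab : a ≠ b) : Shr (fl κ ω) a b ↔ Shr ω a b := by
  obtain ⟨hv, -⟩ := comps_spec h
  by_cases h1 : a ∈ κ <;> by_cases h2 : b ∈ κ
  · simp only [Shr, fl, if_pos h1, if_pos h2]
    exact ⟨fun ⟨j, hj⟩ => ⟨j, hj.symm⟩, fun ⟨j, hj⟩ => ⟨j, hj.symm⟩⟩
  · constructor
    · simp only [Shr, fl, if_pos h1, if_neg h2]
      rintro ⟨j, hj | hj⟩
      · exact absurd (hv.2 a b j hj.1 hj.2) hab
      · exact absurd (hv.1 a b j hj.1 hj.2) hab
    · exact fun hs => absurd (closed h h1 hs) h2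
  · constructor
    · simp only [Shr, fl, if_neg h1, if_pos h2]
      rintro ⟨j, hj | hj⟩
      · exact absurd (hv.1 a b j hj.1 hj.2) hab
      · exact absurd (hv.2 a b j hj.1 hj.2) hab
    · exact fun hs => absurd (closed h h2 (Shr_symm hs)) h1
  · simp only [Shr, fl, if_neg h1, if_neg h2]

theorem gr_fl {ω : Pr n m} {κ : Finset (Fin n)} (h : κ ∈ comps ω) : gr (fl κ ω) = gr ω := by
  ext a b
  exact ⟨fun h1 => ⟨h1.1, (shr_fl h h1.1).1 h1.2⟩, fun h1 => ⟨h1.1, (shr_fl h h1.1).2 h1.2⟩⟩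

theorem comps_fl (ω : Pr n m) (κ : Finset (Fin n)) (h : κ ∈ comps ω) :
    comps (fl κ ω) = comps ω := by
  have h1 := valid_fl h
  have h2 := (comps_spec h).1
  unfold comps cmp
  rw [if_pos h1, if_pos h2, gr_fl h]

/-- the flip system of pairs of configurations -/
def sys (n m : ℕ) : FS (Pr n m) (Finset (Fin n)) where
  comps := comps
  fl := fl
  ch := ch
  sw := Prod.swap
  fl_fl := fl_fl
  comm := fl_comm
  comps_fl := comps_fl
  ch_self := fun ω κ _ => ch_fl_self κ ω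
  ch_ne := fun ω κ κ' h h' hne => ch_fl_disj κ κ' ω (disj h h' hne)
  sw_sw := fun ω => Prod.swap_swap ω
  comps_sw := comps_swap
  ch_sw := fun ω κ => ch_swap κ ω
  fl_sw := fun ω κ => fl_swap κ ω

theorem stmt_COMPA : Stmt_COMPA := fun n m => ⟨sys n m, rfl, rfl, rfl, rfl⟩

end Pool.RookLC.helper94
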