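import Pool.Agent.Work.MP_6f78fb_rk.Interface

/-!
# Block FM: the main injection
-/

open scoped BigOperators TensorProduct
open Classical

noncomputable section

namespace Pool.RookLC.helper94

variable {n m : ℕ}

theorem tt_actC (g : G n m) (α : Cf n m) : tt (actC g α) = tt α := by
  unfold tt
  have h1 : ∀ a, actC g α a = some none ↔ α (g.1.symm a) = some none := by
    intro a
    unfold actC
    rcases α (g.1.symm a) with _ | (_ | j) <;> simp
  symm
  refine Finset.card_bij (fun a _ => g.1 a) ?_ ?_ ?_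
  · intro a ha
    simp only [Finset.mem_filter, Finset.mem_univ, true_and] at ha ⊢
    rw [h1, Equiv.symm_apply_apply]
    exact ha
  · intro a _ b _ hab
    exact g.1.injective hab
  · intro b hb
    simp only [Finset.mem_filter, Finset.mem_univ, true_and] at hb
    refine ⟨g.1.symm b, ?_, by simp⟩
    simp only [Finset.mem_filter, Finset.mem_univ, true_and]
    exact (h1 b).1 hb

theorem dd_eq_sum (α : Cf n m) : dd α = ∑ a, if α a ≠ none then 1 else 0 := by
  unfold dd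
  rw [Finset.card_filter]

theorem tt_eq_sum (α : Cf n m) : tt α = ∑ a, if α a = some none then 1 else 0 := by
  unfold tt
  rw [Finset.card_filter]

theorem dd_fl (κ : Finset (Fin n)) (ω : Pr n m) :
    dd (fl κ ω).1 + dd (fl κ ω).2 = dd ω.1 + dd ω.2 := by
  simp only [dd_eq_sum, ← Finset.sum_add_distrib]
  refine Finset.sum_congr rfl (fun a _ => ?_)
  by_cases h : a ∈ κ
  · simp only [fl, if_pos h]
    exact add_comm _ _
  · simp only [fl, if_neg h]

theorem tt_fl (κ : Finset (Fin n)) (ω : Pr n m) :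
    tt (fl κ ω).1 + tt (fl κ ω).2 = tt ω.1 + tt ω.2 := by
  simp only [tt_eq_sum, ← Finset.sum_add_distrib]
  refine Finset.sum_congr rfl (fun a _ => ?_)
  by_cases h : a ∈ κ
  · simp only [fl, if_pos h]
    exact add_comm _ _
  · simp only [fl, if_neg h]

/-- operators and invariants -/
theorem op_ne {S : FS (Pr n m) (Finset (Fin n))} (h1 : S.comps = comps) (h2 : S.fl = fl)
    {v : ℤ × ℤ} {f : Fn2 n m} {ω : Pr n m} (h : S.Op v f ω ≠ 0) :
    Valid2 ω ∧ ∃ κ, f (fl κ ω) ≠ 0 := by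
  change ∑ κ ∈ (S.comps ω).filter (fun κ => S.ch κ ω = -v), f (S.fl κ ω) ≠ 0 at h
  obtain ⟨κ, hκ, hne⟩ := Finset.exists_ne_zero_of_sum_ne_zero h
  rw [h2] at hne
  refine ⟨?_, κ, hne⟩
  rw [Finset.mem_filter, h1] at hκ
  have h3 := hκ.1
  unfold comps at h3
  split_ifs at h3 with hv
  · exact hv
  · simp at h3

theorem psi_apply (S : FS (Pr n m) (Finset (Fin n))) (inv : Pr n m → ℤ) (W : ℤ → ℤ)
    (f : Fn2 n m) (ω : Pr n m) : S.Psi inv W f ω =
    if (S.Tot ω).1 = 0 ∧ |(S.Tot ω).2| ≤ W (inv ω) ∧ 2 ∣ ((S.Tot ω).2 - W (inv ω)) then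
      S.Op (1, 0) f ω +
        (if (S.Tot ω).2 = 1 ∨ (S.Tot ω).2 = - W (inv ω) then S.Op (0, -1) (S.Op (1, 1) f) ω
          else if 2 ≤ (S.Tot ω).2 then - S.Op (-1, -1) (S.sg f) ω
          else S.Op (-1, -1) (S.sg f) ω)
    else 0 := rfl

/-- the window -/
def Wd (h : ℕ) (s : ℤ) : ℤ := min (2 * (h : ℤ) - s) s

/-- the number of marks -/
def im (ω : Pr n m) : ℤ := (tt ω.1 : ℤ) + tt ω.2

/-- first condition -/
def cA (h a b s t : ℕ) : Prop :=
  (b : ℤ) - a = 0 ∧ |(t : ℤ) - s| ≤ Wd h (s + t) ∧ 2 ∣ (((t : ℤ) - s) - Wd h (s + t))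

/-- second condition -/
def cB (h s t : ℕ) : Prop := (t : ℤ) - s = 1 ∨ (t : ℤ) - s = - Wd h (s + t)

/-- first multiplier -/
def phA (h a b s t : ℕ) : ℂ := if cA h a b s t then 1 else 0
/-- second multiplier -/
def phB (h a b s t : ℕ) : ℂ := if cA h a b s t ∧ cB h s t then 1 else 0
/-- third multiplier -/
def phC (h a b s t : ℕ) : ℂ :=
  if cA h a b s t ∧ ¬ cB h s t then (if 2 ≤ (t : ℤ) - s then -1 else 1) else 0

theorem ite_aux (A B C : Prop) {d1 d6 : Decidable A} {d2 : Decidable B} {d3 d7 : Decidable C}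
    {d4 : Decidable (A ∧ B)} {d5 : Decidable (A ∧ ¬ B)} (x y z : ℂ) :
    (@ite ℂ A d1 (x + @ite ℂ B d2 y (@ite ℂ C d3 (-z) z)) 0) =
      @ite ℂ A d6 1 0 * x + (@ite ℂ (A ∧ B) d4 1 0 * y +
        @ite ℂ (A ∧ ¬ B) d5 (@ite ℂ C d7 (-1) 1) 0 * z) := by
  by_cases hA : A <;> by_cases hB : B <;> by_cases hC : C <;> simp [hA, hB, hC]

theorem stmt_FM (hA : Stmt_COMPA) (hB : Stmt_COMPB) (hP : Stmt_PSI) (hN : Stmt_NST)
    (hE : Stmt_EQV) : Stmt_FM := by
  intro n m l i h
  obtain ⟨S, s1, s2, s3, s4⟩ := hA n m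
  obtain ⟨n1, n2, n3⟩ := hN n m l S s1 s2 s3 s4
  have hE' := hE n m S s1 s2 s3 s4
  have hTot : ∀ ω : Pr n m, Valid2 ω →
      S.Tot ω = ((dd ω.2 : ℤ) - dd ω.1, (tt ω.2 : ℤ) - tt ω.1) := by
    intro ω hv
    rw [← (hB n m ω).2 hv]
    unfold FS.Tot
    rw [s1, s3]
  have hCH : S.CH7 := by
    intro ω κ hκ
    rw [s3]
    rw [s1] at hκ
    exact (hB n m ω).1 κ hκ
  refine ⟨S.Psi im (Wd h), ?_, ?_⟩
  · -- equivariance
    intro g
    obtain ⟨e1, e2, -⟩ := hE' g
    have e3 : ∀ ω : Pr n m, S.Tot (actC g⁻¹ ω.1, actC g⁻¹ ω.2) = S.Tot ω := (hE' g⁻¹).2.2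
    have e4 : ∀ ω : Pr n m, im (actC g⁻¹ ω.1, actC g⁻¹ ω.2) = im ω := by
      intro ω
      unfold im
      rw [tt_actC, tt_actC]
    have e5 : ∀ v f, S.Op v (rF2 g f) = rF2 g (S.Op v f) := fun v f =>
      LinearMap.congr_fun (e1 v) f
    have e6 : ∀ f, S.sg (rF2 g f) = rF2 g (S.sg f) := fun f => LinearMap.congr_fun e2 f
    have e7 : ∀ (f : Fn2 n m) ω, rF2 g f ω = f (actC g⁻¹ ω.1, actC g⁻¹ ω.2) :=
      fun f ω => rfl
    apply LinearMap.ext
    intro f
    funext ω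
    rw [LinearMap.comp_apply, LinearMap.comp_apply, e7, psi_apply, psi_apply, e3, e4, e5, e5,
      e5, e6, e5, e7, e7, e7]
  · rintro f ⟨f1, f2⟩
    have f2' : ∀ ω, f ω ≠ 0 → dd ω.1 = i ∧ dd ω.2 = i + 2 ∧ tt ω.1 ≤ h ∧ tt ω.2 ≤ h := f2
    refine ⟨⟨?_, ?_⟩, ?_⟩
    · -- NH
      have key : S.Psi im (Wd h) f =
          (fun ω : Pr n m => phA h (dd ω.1) (dd ω.2) (tt ω.1) (tt ω.2) * S.Op (1, 0) f ω) +
          ((fun ω : Pr n m => phB h (dd ω.1) (dd ω.2) (tt ω.1) (tt ω.2) *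
              S.Op (0, -1) (S.Op (1, 1) f) ω) +
          (fun ω : Pr n m => phC h (dd ω.1) (dd ω.2) (tt ω.1) (tt ω.2) *
              S.Op (-1, -1) (S.sg f) ω)) := by
        funext ω
        rw [psi_apply]
        simp only [Pi.add_apply]
        by_cases hv : Valid2 ω
        · rw [hTot ω hv]
          exact ite_aux _ _ _ _ _ _
        · have h0 : ∀ v f, S.Op v f ω = 0 := by
            intro v f
            by_contra hne
            exact hv (op_ne s1 s2 hne).1
          simp only [h0, neg_zero, mul_zero, add_zero, ite_self]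
      rw [key]
      exact (NH n m l).add_mem (n3 (phA h) _ (n1 _ f f1)) ((NH n m l).add_mem
        (n3 (phB h) _ (n1 _ _ (n1 _ f f1))) (n3 (phC h) _ (n1 _ _ (n2 f f1))))
    · -- support
      intro ω hω
      rw [psi_apply] at hω
      have hc : (S.Tot ω).1 = 0 ∧ |(S.Tot ω).2| ≤ Wd h (im ω) ∧
          2 ∣ ((S.Tot ω).2 - Wd h (im ω)) := by
        by_contra hc
        rw [if_neg hc] at hω
        exact hω rfl
      rw [if_pos hc] at hω
      have hD : Valid2 ω ∧ dd ω.1 + dd ω.2 = i + (i + 2) := by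
        have a1 : S.Op (1, 0) f ω ≠ 0 → Valid2 ω ∧ dd ω.1 + dd ω.2 = i + (i + 2) := by
          intro hne
          obtain ⟨hv, κ, hk⟩ := op_ne s1 s2 hne
          refine ⟨hv, ?_⟩
          have h3 := f2' _ hk
          rw [← dd_fl κ ω, h3.1, h3.2.1]
        have a2 : S.Op (0, -1) (S.Op (1, 1) f) ω ≠ 0 →
            Valid2 ω ∧ dd ω.1 + dd ω.2 = i + (i + 2) := by
          intro hne
          obtain ⟨hv, κ, hk⟩ := op_ne s1 s2 hne
          obtain ⟨-, κ', hk'⟩ := op_ne s1 s2 hk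
          refine ⟨hv, ?_⟩
          have h3 := f2' _ hk'
          rw [← dd_fl κ ω, ← dd_fl κ' (fl κ ω), h3.1, h3.2.1]
        have a3 : S.Op (-1, -1) (S.sg f) ω ≠ 0 →
            Valid2 ω ∧ dd ω.1 + dd ω.2 = i + (i + 2) := by
          intro hne
          obtain ⟨hv, κ, hk⟩ := op_ne s1 s2 hne
          refine ⟨hv, ?_⟩
          have hk' : f ((fl κ ω).swap) ≠ 0 := by
            rw [← s4]; exact hk
          have h3 := f2' _ hk'
          have h4 := dd_fl κ ω
          simp only [Prod.fst_swap, Prod.snd_swap] at h3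
          omega
        by_contra hno
        have b1 : S.Op (1, 0) f ω = 0 := by by_contra hne; exact hno (a1 hne)
        have b2 : S.Op (0, -1) (S.Op (1, 1) f) ω = 0 := by by_contra hne; exact hno (a2 hne)
        have b3 : S.Op (-1, -1) (S.sg f) ω = 0 := by by_contra hne; exact hno (a3 hne)
        apply hω
        rw [b1, b2, b3]
        simp
      obtain ⟨hv, hD⟩ := hD
      rw [hTot ω hv] at hc
      obtain ⟨c1, c2, -⟩ := hc
      simp only [im, Wd] at c1 c2
      have c3 := abs_le.1 (le_trans c2 (min_le_left _ _))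
      refine ⟨?_, ?_, ?_, ?_⟩ <;> omega
    · -- injectivity
      intro h0
      refine hP _ _ S hCH im (Wd h) ?_ ?_ f ?_ h0
      · intro ω κ _
        rw [s2]
        unfold im
        have := tt_fl κ ω
        exact_mod_cast this
      · intro ω
        rw [s4]
        unfold im
        simp only [Prod.fst_swap, Prod.snd_swap]
        exact add_comm _ _
      · intro ω hω
        have hv : Valid2 ω := f1.1 ω hω
        have h3 := f2' ω hω
        rw [hTot ω hv]
        simp only [im, Wd]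
        refine ⟨by omega, ?_, ?_⟩
        · rw [abs_le]
          rcases min_cases (2 * (h : ℤ) - ((tt ω.1 : ℤ) + tt ω.2)) ((tt ω.1 : ℤ) + tt ω.2) with
            ⟨h5, -⟩ | ⟨h5, -⟩ <;> rw [h5] <;> constructor <;> omega
        · rcases min_cases (2 * (h : ℤ) - ((tt ω.1 : ℤ) + tt ω.2)) ((tt ω.1 : ℤ) + tt ω.2) with
            ⟨h5, -⟩ | ⟨h5, -⟩ <;> rw [h5] <;> omega

end Pool.RookLC.helper94
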