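import Pool.Agent.Work.MP_6f78fb_rk.Interface

/-!
# Block SPLIT: dimensions are additive in the support condition
-/

open scoped BigOperators TensorProduct
open Classical

noncomputable section

namespace Pool.RookLC.helper94

variable {n m : ℕ}

theorem dd_real (α : Cf n m) (a : Fin n) (x : Fin m) :
    dd (Function.update α a (some (some x))) =
      (insert a (Finset.univ.filter fun b => α b ≠ none)).card := by
  unfold dd
  congr 1
  ext b
  by_cases h : b = a
  · subst h; simp
  · simp [Function.update_of_ne h, h]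

theorem tt_real (α : Cf n m) (a : Fin n) (x : Fin m) :
    tt (Function.update α a (some (some x))) =
      ((Finset.univ.filter fun b => α b = some none).erase a).card := by
  unfold tt
  congr 1
  ext b
  by_cases h : b = a
  · subst h; simp
  · simp [Function.update_of_ne h, h]

theorem dd_lab (α : Cf n m) (a : Fin n) (s : Option (Fin m)) (ha : α a = none) :
    dd (Function.update α a (some s)) = dd α + 1 := by
  unfold dd
  have h0 : (Finset.univ.filter fun b => Function.update α a (some s) b ≠ none) =
      insert a (Finset.univ.filter fun b => α b ≠ none) := by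
    ext b
    by_cases h : b = a
    · subst h; simp
    · simp [Function.update_of_ne h, h]
  rw [h0, Finset.card_insert_of_notMem (by simp [ha])]

theorem tt_lab (α : Cf n m) (a : Fin n) (s : Option (Fin m)) (ha : α a = none) :
    tt (Function.update α a (some s)) = tt α + (if s = none then 1 else 0) := by
  unfold tt
  by_cases hs : s = none
  · subst hs
    have h0 : (Finset.univ.filter fun b => Function.update α a (some none) b = some none) =
        insert a (Finset.univ.filter fun b => α b = some none) := by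
      ext b
      by_cases h : b = a
      · subst h; simp
      · simp [Function.update_of_ne h, h]
    rw [h0, Finset.card_insert_of_notMem (by simp [ha])]
    simp
  · have h0 : (Finset.univ.filter fun b => Function.update α a (some s) b = some none) =
        (Finset.univ.filter fun b => α b = some none) := by
      ext b
      by_cases h : b = a
      · subst h; simp [ha, hs]
      · simp [Function.update_of_ne h]
    rw [h0]
    simp [hs]

/-- multiplication by a function of the numbers -/
def mul2 (φ : ℕ → ℕ → ℕ → ℕ → ℂ) (f : Fn2 n m) : Fn2 n m :=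
  fun ω => φ (dd ω.1) (dd ω.2) (tt ω.1) (tt ω.2) * f ω

/-- multiplication by a function of the numbers -/
def mul1 (φ : ℕ → ℕ → ℂ) (f : Fn n m) : Fn n m :=
  fun α => φ (dd α) (tt α) * f α

theorem mul1_mem (φ : ℕ → ℕ → ℂ) {l : Bool} {f : Fn n m} (hf : f ∈ H1 n m l) :
    mul1 φ f ∈ H1 n m l := by
  obtain ⟨h1, h2, h3⟩ := hf
  refine ⟨fun α h => h1 α (fun h0 => h ?_), fun α a => ?_, fun hl α s => ?_⟩
  · simp [mul1, h0]
  · simp only [mul1, dd_real, tt_real]
    rw [← Finset.mul_sum, h2 α a, mul_zero]
  · have h4 : ∀ b ∈ Finset.univ.filter (fun b => α b = none),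
        mul1 φ f (Function.update α b (some s)) =
          φ (dd α + 1) (tt α + (if s = none then 1 else 0)) *
            f (Function.update α b (some s)) := by
      intro b hb
      have hb' : α b = none := by simpa using hb
      simp only [mul1, dd_lab α b s hb', tt_lab α b s hb']
    rw [Finset.sum_congr rfl h4, ← Finset.mul_sum, h3 hl α s, mul_zero]

theorem mul2_UH (φ : ℕ → ℕ → ℕ → ℕ → ℂ) {l : Bool} {f : Fn2 n m} (hf : f ∈ UH n m l) :
    mul2 φ f ∈ UH n m l := by
  refine ⟨fun β => ?_, fun α => ?_⟩
  · exact mul1_mem (fun a s => φ a (dd β) s (tt β)) (hf.1 β)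
  · exact mul1_mem (fun a s => φ (dd α) a (tt α) s) (hf.2 α)

theorem mul2_NH (φ : ℕ → ℕ → ℕ → ℕ → ℂ) {l : Bool} {f : Fn2 n m} (hf : f ∈ NH n m l) :
    mul2 φ f ∈ NH n m l := by
  obtain ⟨h1, ⟨h2, h2'⟩, h3⟩ := hf
  refine ⟨fun α h => h1 α (fun h0 => h ?_), ⟨fun α β a => ?_, fun α β a => ?_⟩,
    fun hl => ⟨fun α β s => ?_, fun α β s => ?_⟩⟩
  · simp [mul2, h0]
  · simp only [mul2, dd_real, tt_real]
    rw [← Finset.mul_sum, h2 α β a, mul_zero]
  · simp only [mul2, dd_real, tt_real]
    rw [← Finset.mul_sum, h2' α β a, mul_zero]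
  · have h4 : ∀ b ∈ Finset.univ.filter (fun b => α b = none ∧ β b = none),
        mul2 φ f (Function.update α b (some s), β) =
          φ (dd α + 1) (dd β) (tt α + (if s = none then 1 else 0)) (tt β) *
            f (Function.update α b (some s), β) := by
      intro b hb
      have hb' : α b = none ∧ β b = none := by simpa using hb
      simp only [mul2, dd_lab α b s hb'.1, tt_lab α b s hb'.1]
    rw [Finset.sum_congr rfl h4, ← Finset.mul_sum, (h3 hl).1 α β s, mul_zero]
  · have h4 : ∀ b ∈ Finset.univ.filter (fun b => α b = none ∧ β b = none),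
        mul2 φ f (α, Function.update β b (some s)) =
          φ (dd α) (dd β + 1) (tt α) (tt β + (if s = none then 1 else 0)) *
            f (α, Function.update β b (some s)) := by
      intro b hb
      have hb' : α b = none ∧ β b = none := by simpa using hb
      simp only [mul2, dd_lab β b s hb'.2, tt_lab β b s hb'.2]
    rw [Finset.sum_congr rfl h4, ← Finset.mul_sum, (h3 hl).2 α β s, mul_zero]

theorem split (W : Submodule ℂ (Fn2 n m)) (hW : ∀ φ, ∀ f ∈ W, mul2 φ f ∈ W)
    (P Q : ℕ → ℕ → ℕ → ℕ → Prop) :
    Module.finrank ℂ ↥(W ⊓ S2 n m P) =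
      Module.finrank ℂ ↥(W ⊓ S2 n m (fun a b s t => P a b s t ∧ Q a b s t)) +
      Module.finrank ℂ ↥(W ⊓ S2 n m (fun a b s t => P a b s t ∧ ¬ Q a b s t)) := by
  set B := W ⊓ S2 n m (fun a b s t => P a b s t ∧ Q a b s t) with hB
  set C := W ⊓ S2 n m (fun a b s t => P a b s t ∧ ¬ Q a b s t) with hC
  have h1 : B ⊔ C = W ⊓ S2 n m P := by
    apply le_antisymm
    · refine sup_le (fun f hf => ⟨hf.1, fun ω h => (hf.2 ω h).1⟩)
        (fun f hf => ⟨hf.1, fun ω h => (hf.2 ω h).1⟩)
    · intro f hf
      rw [Submodule.mem_sup]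
      refine ⟨mul2 (fun a b s t => if Q a b s t then 1 else 0) f, ⟨hW _ f hf.1, ?_⟩,
        mul2 (fun a b s t => if Q a b s t then 0 else 1) f, ⟨hW _ f hf.1, ?_⟩, ?_⟩
      · intro ω h
        by_cases hQ : Q (dd ω.1) (dd ω.2) (tt ω.1) (tt ω.2)
        · refine ⟨hf.2 ω (fun h0 => h ?_), hQ⟩
          simp [mul2, h0]
        · exact absurd (by simp [mul2, hQ]) h
      · intro ω h
        by_cases hQ : Q (dd ω.1) (dd ω.2) (tt ω.1) (tt ω.2)
        · exact absurd (by simp [mul2, hQ]) h
        · refine ⟨hf.2 ω (fun h0 => h ?_), hQ⟩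
          simp [mul2, h0]
      · funext ω
        by_cases hQ : Q (dd ω.1) (dd ω.2) (tt ω.1) (tt ω.2)
        · simp [mul2, hQ]
        · simp [mul2, hQ]
  have h2 : B ⊓ C = ⊥ := by
    rw [eq_bot_iff]
    intro f hf
    rw [Submodule.mem_bot]
    funext ω
    by_contra h
    exact (hf.2.2 ω h).2 (hf.1.2 ω h).2
  have h3 := Submodule.finrank_sup_add_finrank_inf_eq B C
  rw [h1, h2, finrank_bot, add_zero] at h3
  exact h3

theorem stmt_SPLIT : Stmt_SPLIT := fun _ _ _ P Q =>
  ⟨split _ (fun φ _ hf => mul2_UH φ hf) P Q, split _ (fun φ _ hf => mul2_NH φ hf) P Q⟩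

end Pool.RookLC.helper94
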